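import Pool.Agent.MP_71daef_lc.det.All

/-!
The girth can be computed in deterministic polynomial time in every proper minor-closed class of
binary matroids.
-/

set_option autoImplicit false

namespace Pool.Agent.Results.MP_71daef_lc.Deterministic

open Matroid

/-- `M` is the column matroid of the matrix `A` over the field with two elements. -/
def IsColMatroid {m n : ℕ} (M : Matroid (Fin n)) (A : Matrix (Fin m) (Fin n) (ZMod 2)) : Prop :=
  M.E = Set.univ ∧ ∀ I, M.Indep I ↔ LinearIndepOn (ZMod 2) (fun j i => A i j) I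

/-- `N` and `M` are isomorphic. -/
def Isom {k n : ℕ} (N : Matroid (Fin k)) (M : Matroid (Fin n)) : Prop :=
  ∃ f : N.E ≃ M.E, ∀ I : Set N.E,
    N.Indep (Subtype.val '' I) ↔ M.Indep (Subtype.val '' (f '' I))

/-- The class `𝓜` is closed under minors and under isomorphism. -/
def MinorClosed (𝓜 : ∀ n : ℕ, Set (Matroid (Fin n))) : Prop :=
  (∀ (n : ℕ) (M N : Matroid (Fin n)), M ∈ 𝓜 n → N ≤m M → N ∈ 𝓜 n) ∧
  (∀ (n k : ℕ) (M : Matroid (Fin n)) (N : Matroid (Fin k)), M ∈ 𝓜 n → Isom N M → N ∈ 𝓜 k)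

/-- The girth: the least size of a circuit, `⊤` if there is none. -/
noncomputable def girth {n : ℕ} (M : Matroid (Fin n)) : ℕ∞ :=
  ⨅ C ∈ {C : Set (Fin n) | M.IsCircuit C}, C.encard

/-- A binary matrix as the list of its columns. -/
def columns {m n : ℕ} (A : Matrix (Fin m) (Fin n) (ZMod 2)) : List (List Bool) :=
  List.ofFn fun j => List.ofFn fun i => decide (A i j = 1)

/-- The output `0` stands for `⊤`. -/
def value (v : ℕ) : ℕ∞ := if v = 0 then ⊤ else v

open Pool.Agent.MP71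

theorem col_columns {m n : ℕ} (A : Matrix (Fin m) (Fin n) (ZMod 2)) :
    (fun j : Fin n => col m (columns A) j) = fun j i => A i j := by
  funext j i
  rcases f2_cases (A i j) with h | h <;> simp [col, ent, columns, h]

theorem exists_code {m n : ℕ} {M : Matroid (Fin n)} {A : Matrix (Fin m) (Fin n) (ZMod 2)}
    (hM : IsColMatroid M A) : ∃ m', ((columns A).headD []).length = m' ∧ ∀ S, ¬ M.Indep S ↔
      ∃ Z, (mcode m' (columns A)).cyc Z ∧ Z.Nonempty ∧ ∀ z ∈ Z, ∃ j ∈ S, (j : ℕ) = z := by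
  rcases n with _ | n
  · refine ⟨_, rfl, fun S => iff_of_false (not_not.2 (Subsingleton.elim ∅ S ▸ M.empty_indep)) ?_⟩
    rintro ⟨Z, -, ⟨z, hz⟩, h⟩
    exact (h z hz).elim fun j => j.elim0
  · exact ⟨m, by simp [columns, List.ofFn_succ], fun S => by
      rw [hM.2, ← col_columns, not_indep_iff']⟩

theorem exists_minor {n r k : ℕ} {M : Matroid (Fin n)} (hM : M.E = Set.univ) {c : Code}
    (hc : ∀ S, ¬ M.Indep S ↔ ∃ Z, c.cyc Z ∧ Z.Nonempty ∧ ∀ z ∈ Z, ∃ j ∈ S, (j : ℕ) = z)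
    {N : Matroid (Fin k)} {D : Matrix (Fin r) (Fin k) (ZMod 2)} (hN : IsColMatroid N D)
    (h : c.Emb (Finset.range n) k (fun j (t : Fin (r + 1)) => ent (columns D) t j = true)) :
    ∃ M', M' ≤m M ∧ Isom N M' := by
  obtain ⟨C₀, ψ₀, h0, h1, h2, h3, h4⟩ := h.minor
  set ψ : Fin k → Fin n := fun j => ⟨ψ₀ j, Finset.mem_range.1 (h3 j).1⟩ with hψ
  set C : Set (Fin n) := {j | (j : ℕ) ∈ C₀} with hC
  have h5 : Function.Injective ψ := fun i j h => h2 (congrArg Fin.val h)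
  have h6 : M.Indep C := by
    by_contra hcon
    obtain ⟨Z, h6, h7, h8⟩ := (hc C).1 hcon
    refine h7.ne_empty (h1 Z (fun z hz => ?_) h6)
    obtain ⟨j, hj, rfl⟩ := h8 z hz
    exact hj
  have h7 : ∀ J, N.Indep J ↔ M.Indep (ψ '' J ∪ C) := fun J => by
    rw [← not_iff_not, hc, hN.2, ← col_columns, MP71.not_indep_iff]
    refine Iff.trans ?_ ((h4 J).trans ?_)
    · refine exists_congr fun W => and_congr_right fun _ => and_congr_right fun _ => ?_
      rw [funext_iff, Fin.forall_fin_succ', and_iff_left (by simp [ent, columns])]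
      simp only [col, Finset.sum_apply, Pi.zero_apply, Fin.val_castSucc]
      refine forall_congr' fun t => ?_
      congr! 3
    · refine exists_congr fun Z => and_congr_right fun _ => and_congr_right fun _ =>
        forall₂_congr fun z _ => ⟨?_, ?_⟩
      · rintro (h | ⟨j, hj, rfl⟩)
        · exact ⟨⟨z, Finset.mem_range.1 (h0 h)⟩, Or.inr h, rfl⟩
        · exact ⟨ψ j, Or.inl ⟨j, hj, rfl⟩, rfl⟩
      · rintro ⟨_, ⟨j, hj, rfl⟩ | h, rfl⟩
        · exact Or.inr ⟨j, hj, rfl⟩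
        · exact Or.inl h
  have hE : (M ／ C ＼ (Set.range ψ)ᶜ).E = Set.range ψ := by
    ext j
    simp only [delete_ground, contract_ground, hM, Set.mem_sdiff, Set.mem_univ, true_and,
      Set.mem_compl_iff, not_not, and_iff_right_iff_imp]
    rintro ⟨e, rfl⟩
    exact (h3 e).2
  have hb : Set.BijOn ψ N.E (M ／ C ＼ (Set.range ψ)ᶜ).E := by
    rw [hE, hN.1, ← Set.image_univ]
    exact h5.injOn.bijOn_image
  refine ⟨_, contract_delete_isMinor M C (Set.range ψ)ᶜ, hb.equiv ψ, fun I => ?_⟩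
  have e1 : Subtype.val '' (hb.equiv ψ '' I) = ψ '' (Subtype.val '' I) := by
    rw [Set.image_image, Set.image_image]; rfl
  rw [e1, h7, delete_indep_iff, h6.contract_indep_iff]
  refine ⟨fun h => ⟨⟨?_, h⟩, ?_⟩, fun h => h.1.2⟩
  · exact Set.disjoint_left.2 (by rintro _ ⟨e, -, rfl⟩; exact (h3 e).2)
  · exact Set.disjoint_compl_right_iff_subset.2 (Set.image_subset_range _ _)

theorem result (𝓜 : ∀ n : ℕ, Set (Matroid (Fin n))) (h𝓜 : MinorClosed 𝓜)
    (hp : ∃ (r k : ℕ) (D : Matrix (Fin r) (Fin k) (ZMod 2)) (N : Matroid (Fin k)),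
      IsColMatroid N D ∧ N ∉ 𝓜 k) :
    ∃ f : List (List Bool) → ℕ, N68a2faeb.IsPolyTime f ∧
      ∀ (m n : ℕ) (A : Matrix (Fin m) (Fin n) (ZMod 2)) (M : Matroid (Fin n)),
        IsColMatroid M A → M ∈ 𝓜 n → value (f (columns A)) = girth M := by
  classical
  obtain ⟨r, k, D, N, hN, hNM⟩ := hp
  obtain ⟨f, hf, hK⟩ := top_all (r + 1 + k)
  refine ⟨f, hf, fun m n A M hM hMM => ?_⟩
  obtain ⟨m', hm, hc⟩ := exists_code hM
  have hlen : (columns A).length = n := by simp [columns]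
  obtain ⟨h1, h2⟩ := hK m' _ hm fun h => by
    obtain ⟨M', h1, h2⟩ := exists_minor hM.1 hc hN (by
      rw [hlen] at h
      exact uni_all.emb _ _ _ _ _ h)
    exact hNM (h𝓜.2 _ _ _ _ (h𝓜.1 _ _ _ hMM h1) h2)
  rw [hlen] at h1 h2
  refine le_antisymm (le_iInf₂ fun C hC => ?_) ?_
  · obtain ⟨Z, h3, h4, h5⟩ := (hc C).1 (IsCircuit.dep hC).not_indep
    obtain ⟨h6, h7⟩ := h2 Z (fun z hz => by
      obtain ⟨j, -, rfl⟩ := h5 z hz
      exact Finset.mem_range.2 j.2) h3 h4
    rw [value, if_neg h6]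
    refine le_trans (Nat.cast_le.2 h7) ?_
    rw [← Set.encard_coe_eq_coe_finsetCard, ← Fin.val_injective.encard_image C]
    exact Set.encard_le_encard h5
  · unfold value
    split_ifs with h0
    · exact le_top
    obtain ⟨Z, h2, h3, h4⟩ := h1 h0
    have h5 : M.Dep {j | (j : ℕ) ∈ Z} := dep_iff.2 ⟨(hc _).2 ⟨Z, h3,
      Finset.card_pos.1 (h4 ▸ Nat.pos_of_ne_zero h0),
      fun z hz => ⟨⟨z, Finset.mem_range.1 (h2 hz)⟩, hz, rfl⟩⟩, hM.1 ▸ Set.subset_univ _⟩
    obtain ⟨C, h6, h7⟩ := h5.exists_isCircuit_subset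
    refine (iInf₂_le C h7).trans ?_
    rw [← h4, ← Set.encard_coe_eq_coe_finsetCard]
    exact Set.encard_le_encard_of_injOn (f := Fin.val) (fun j hj => h6 hj) Fin.val_injective.injOn

end Pool.Agent.Results.MP_71daef_lc.Deterministic
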